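import Pool.Agent.H38.SE.TarZ

/-! # MP_eaeaf5_lc, ZE: true `Σ¹₄` facts are secured -/

set_option autoImplicit false

open Ordinal Order Set
open scoped ZFSet

namespace SE

open SF

theorem ze_in2 {W : V → Prop} {x y : V} (hx : W x) (hy : W y) :
    In W (cons x fun _ => y) := fun i => by cases i <;> assumption

theorem t_ze (hAI : T_AI) (hAH : T_AH) (hBJ : T_BJ) (hSA : T_SA) (hZA : T_ZA) (hZC : T_ZC)
    (hZD : T_ZD) : T_ZE := by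
  intro D hD G hG s hs hsL hTr a x hWa hRa hWx hRx
  obtain ⟨-, -, -, -, hZA'⟩ := hZA D hD
  obtain ⟨hA1, -, hA3⟩ := hZA' G hG
  obtain ⟨hSt, -, -, hWG, -, hEx⟩ := hA1 s hs hsL hTr
  obtain ⟨-, -, -, -, hSAs⟩ := hSA D hD.ok s (gs G s) hSt
  obtain ⟨-, -, hHN, -, hBJ'⟩ := hBJ D hD.ok
  constructor
  · rintro ⟨v, hWv, hRv, hP⟩
    obtain ⟨s', hs', hss', hs'L, hTr', hWv'⟩ := (hA3 s hs hsL hTr).1 v hWv hRv
    have hex := hEx s' hs' hss' hs'L hTr'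
    obtain ⟨-, -, hmono, -⟩ := hSAs s' (gs G s') hex
    have hSt' := (hA1 s' hs' hs'L hTr').1
    obtain ⟨⟨hZFC, -⟩, -⟩ := (hBJ' s' (hHN s' hs') hSt'.c).2 (gs G s') hSt'.g
    have hWp : D.W (gs G s') (prl x v) :=
      hAI.2.2.1.1 (D.W (gs G s')) hZFC.toZFCm.toZFm (cons x fun _ => v)
        (ze_in2 (hmono x hWx) hWv')
    refine ⟨s', hs', hss', hs'L, hTr', v, hWv', hRv, ?_⟩
    exact hZD D hD G hG s' hs' hs'L hTr' a (prl x v) (hmono a hWa) hRa hWp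
      (hAH.1 x v hRx hRv).1 hP
  · rintro ⟨s', hs', hss', hs'L, hTr', v, hWv', hRv, hSec⟩
    have hex := hEx s' hs' hss' hs'L hTr'
    obtain ⟨-, -, hmono, -⟩ := hSAs s' (gs G s') hex
    obtain ⟨hSt', -, -, hWG', -⟩ := hA1 s' hs' hs'L hTr'
    obtain ⟨⟨hZFC, -⟩, -⟩ := (hBJ' s' (hHN s' hs') hSt'.c).2 (gs G s') hSt'.g
    have hWp : D.W (gs G s') (prl x v) :=
      hAI.2.2.1.1 (D.W (gs G s')) hZFC.toZFCm.toZFm (cons x fun _ => v)
        (ze_in2 (hmono x hWx) hWv')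
    refine ⟨v, hWG' v hWv', hRv, ?_⟩
    exact hZC D hD G hG s' hs' hs'L hTr' a (prl x v) (hmono a hWa) hRa hWp
      (hAH.1 x v hRx hRv).1 hSec

end SE
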