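import Pool.Agent.H9.SE.TarL

/-! # MP_eaeaf5_lc, LG2: closure of `L_κ`, countability in `L_μ` -/

set_option autoImplicit false

open Ordinal Order Set
open scoped ZFSet

namespace SE

open SF CAA

/-- the function which maps `u` to the least level which contains `f u` -/
noncomputable def lg2_G (x κ f : V) : V := (ZFSet.prod x κ).sep fun z =>
  app f (fst z) ∈ LAS ∅ (snd z) ∧ ∀ δ ∈ snd z, ¬ app f (fst z) ∈ LAS ∅ δ

theorem lg2_tmG : Tm ZFm (fun _ v => lg2_G (v 0) (v 1) (v 2)) := by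
  unfold lg2_G
  refine Tm.sep (R := fun _ w => app (w 3) (fst (w 0)) ∈ LAS ∅ (snd (w 0)) ∧
    ∀ δ ∈ snd (w 0), ¬ app (w 3) (fst (w 0)) ∈ LAS ∅ δ) ?_ (Tm.prod (Tm.var 0) (Tm.var 1))
  refine (Dfb.mem (Tm.app (Tm.var 3) (Tm.fst (Tm.var 0)))
    (Tm.LAS Tm.empty (Tm.snd (Tm.var 0)))).and ?_
  exact Dfb.ball (R := fun _ u => ¬ app (u 4) (fst (u 1)) ∈ LAS ∅ (u 0)) ktr_zfm
    (Tm.snd (Tm.var 0)) (Dfb.mem (Tm.app (Tm.var 4) (Tm.fst (Tm.var 1)))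
      (Tm.LAS Tm.empty (Tm.var 0))).not

theorem lg2_tmr : Tm ZFm (fun _ v => rnF (v 0) (v 1) (v 2)) := by
  unfold rnF
  refine Tm.sep (R := fun _ w => ∃ u ∈ w 2, ZFSet.pair u (w 0) ∈ w 3) ?_ (Tm.var 0)
  exact Dfb.bex (R := fun _ u => ZFSet.pair (u 0) (u 1) ∈ u 4) ktr_zfm (Tm.var 2)
    (Dfb.pairMem (Tm.var 0) (Tm.var 1) (Tm.var 4))

theorem t_lg2 : T_LG2 := by
  intro τ μ κ hG
  have kN : ZFm (· ∈ LA ∅ τ) := hG.zfc.toZFCm.toZFm
  have hκN : κ.toZFSet ∈ LA ∅ τ := (hG.ord κ).2 hG.κτ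
  have hLκN : LA ∅ κ ∈ LA ∅ τ := Lh_mem hG.κτ
  refine ⟨?_, ?_, ?_⟩
  · intro x hx f hfN hf
    have hxN : x ∈ LA ∅ τ := Lh_mono hG.κτ.le hx
    have hGN : lg2_G x κ.toZFSet f ∈ LA ∅ τ :=
      lg2_tmG.1 (· ∈ LA ∅ τ) kN (cons x (cons κ.toZFSet fun _ => f))
        (fun i => by rcases i with _ | _ | i <;> assumption)
    -- the least level
    have hleast : ∀ u ∈ x, ∃ β < κ, app f u ∈ LA ∅ β ∧ ∀ γ < β, app f u ∉ LA ∅ γ := by
      intro u hu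
      have h1 : app f u ∈ LA ∅ κ := app_mem hf hu
      obtain ⟨β, hβ, h2⟩ := (mem_Lh_limit hG.limκ).1 h1
      have hne : {δ : Ordinal.{0} | app f u ∈ LA ∅ δ}.Nonempty := ⟨β, h2⟩
      refine ⟨sInf {δ : Ordinal.{0} | app f u ∈ LA ∅ δ}, ?_, csInf_mem hne, ?_⟩
      · exact lt_of_le_of_lt (csInf_le' h2) hβ
      · intro γ hγ h3
        have h4 : sInf {δ : Ordinal.{0} | app f u ∈ LA ∅ δ} ≤ γ := csInf_le' h3
        exact absurd h4 (not_le.2 hγ)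
    have hmemG : ∀ u ∈ x, ∀ β < κ, app f u ∈ LA ∅ β → (∀ γ < β, app f u ∉ LA ∅ γ) →
        ZFSet.pair u β.toZFSet ∈ lg2_G x κ.toZFSet f := by
      intro u hu β hβ h1 h2
      unfold lg2_G
      rw [ZFSet.mem_sep, fst_pair, snd_pair, LAS_ord]
      refine ⟨ZFSet.pair_mem_prod.2 ⟨hu, Ordinal.toZFSet_mem_toZFSet_iff.2 hβ⟩, h1, ?_⟩
      intro δ hδ
      obtain ⟨γ, hγ, rfl⟩ := Ordinal.mem_toZFSet_iff.1 hδ
      rw [LAS_ord]
      exact h2 γ hγ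
    have hfunc : ZFSet.IsFunc x κ.toZFSet (lg2_G x κ.toZFSet f) := by
      refine ⟨fun z hz => (ZFSet.mem_sep.1 hz).1, ?_⟩
      intro u hu
      obtain ⟨β, hβ, h1, h2⟩ := hleast u hu
      refine ⟨β.toZFSet, hmemG u hu β hβ h1 h2, ?_⟩
      intro w hw
      unfold lg2_G at hw
      rw [ZFSet.mem_sep, fst_pair, snd_pair] at hw
      obtain ⟨hw0, hw1, hw2⟩ := hw
      obtain ⟨γ, hγ, rfl⟩ := Ordinal.mem_toZFSet_iff.1 (ZFSet.pair_mem_prod.1 hw0).2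
      rw [LAS_ord] at hw1
      rcases lt_trichotomy γ β with h | h | h
      · exact absurd hw1 (h2 γ h)
      · rw [h]
      · exact absurd h1 (by
          have := hw2 β.toZFSet (Ordinal.toZFSet_mem_toZFSet_iff.2 h)
          rwa [LAS_ord] at this)
    obtain ⟨γ, hγ, hbd⟩ := hG.regκ x hx _ hGN hfunc
    have hsub : rnF (LA ∅ κ) x f ⊆ LA ∅ γ := by
      intro y hy
      unfold rnF at hy
      obtain ⟨-, u, hu, huy⟩ := ZFSet.mem_sep.1 hy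
      obtain ⟨β, hβ, h1, h2⟩ := hleast u hu
      have h3 := hbd u hu
      rw [app_eq (svl_of_isFunc hfunc) (hmemG u hu β hβ h1 h2),
        Ordinal.toZFSet_mem_toZFSet_iff] at h3
      rw [app_eq (svl_of_isFunc hf) huy] at h1
      exact Lh_mono h3.le h1
    refine hG.subκ (LA ∅ γ) (Lh_mem hγ) _ ?_ hsub
    exact lg2_tmr.1 (· ∈ LA ∅ τ) kN (cons (LA ∅ κ) (cons x fun _ => f))
      (fun i => by rcases i with _ | _ | i <;> assumption)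
  · intro x hx
    rcases hG.cμ x hx with h | ⟨f, hfN, hf⟩
    · exact Or.inl h
    · right
      refine ⟨f, ?_, hf⟩
      have h1 : ZFSet.prod om x ∈ LA ∅ μ :=
        (Tm.prod Tm.om (Tm.var 0)).1 (· ∈ LA ∅ μ) hG.zμ (fun _ => x) fun _ => hx
      exact hG.subμ _ h1 f hfN hf.1.1
  · intro x hx hxN
    exact hG.subκ (LA ∅ μ) (Lh_mem hG.μκ) x hxN hx

end SE
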