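import Pool.Agent.H9.SE.TarK

/-! # MP_eaeaf5_lc, KS: pointwise substitutions -/

set_option autoImplicit false

open Ordinal Order Set
open scoped ZFSet

namespace SE

open SF CAA

/-- initial segments of a function defined on `ω` -/
theorem ks_rs (F : V → V) (m : ℕ) : rs (resS om F) (nS m) = resS (nS m) F := by
  ext z
  unfold rs
  rw [ZFSet.mem_sep, mem_resS, mem_resS]
  constructor
  · rintro ⟨⟨n, hn, rfl⟩, h⟩
    rw [fst_pair] at h
    exact ⟨n, h, rfl⟩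
  · rintro ⟨n, hn, rfl⟩
    have hom : n ∈ om := (ZFSet.isOrdinal_toZFSet (ω : Ordinal.{0})).isTransitive _
      (nS_mem_om m) hn
    exact ⟨⟨n, hom, rfl⟩, by rw [fst_pair]; exact hn⟩

/-- the transformed finite sequence -/
noncomputable def ks_T (ψ s : V) : V := resS (dm s) fun n => app ψ (ZFSet.pair n (app s n))

theorem t_ks (hAF : T_AF) (hAG : T_AG) (hKB : T_KB) : T_KS := by
  intro M k ψ hMψ hψ a hMa hRa
  have hTm : Tm ZFm (fun _ v => (sq.sep fun s => ks_T (v 0) s ∈ rg (v 1) : V)) := by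
    refine Tm.sep (R := fun _ w => ks_T (w 1) (w 0) ∈ rg (w 2)) ?_ hAF.2.2.1
    refine Dfb.mem (f := fun _ w => ks_T (w 1) (w 0)) ?_ (Tm.rg (Tm.var 2))
    unfold ks_T
    exact Tm.resS (f := fun _ w => dm (w 0))
      (g := fun _ u => app (u 2) (ZFSet.pair (u 0) (app (u 1) (u 0)))) (Tm.dm (Tm.var 0))
      (Tm.app (Tm.var 2) (Tm.pair (Tm.var 0) (Tm.app (Tm.var 1) (Tm.var 0))))
  have hMP : M (sq.sep fun s => ks_T ψ s ∈ rg a) :=
    hTm.1 M k (cons ψ fun _ => a) fun i => by cases i <;> assumption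
  obtain ⟨c, hMc, hRc, hc⟩ := hKB.2 M k _ hMP (fun s hs => (ZFSet.mem_sep.1 hs).1)
  refine ⟨c, hMc, hRc, ?_⟩
  intro x hx
  obtain ⟨-, -, hx3, -⟩ := hAG.1 x hx
  have hF : ∀ n : ℕ, app ψ (ZFSet.pair (nS n) (app x (nS n))) ∈ hf := fun n =>
    app_mem hψ (ZFSet.pair_mem_prod.2 ⟨nS_mem_om n, (hx3 n).1⟩)
  obtain ⟨hRT, -⟩ := hAG.2.2.2.2.2 (fun n => app ψ (ZFSet.pair n (app x n))) hF
  rw [hc x hx, hKB.1 a _ hRa hRT]
  refine exists_congr fun m => ?_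
  rw [ks_rs]
  obtain ⟨-, hSq, -, happ⟩ := hx3 m
  have hdm : dm (rs x (nS m)) = nS m := (hAF.2.2.2.2.1 m _ hSq).2.2.1
  have hT : ks_T ψ (rs x (nS m)) = resS (nS m) fun n => app ψ (ZFSet.pair n (app x n)) := by
    unfold ks_T
    rw [hdm]
    refine resS_congr fun n hn => ?_
    have hom : n ∈ om := (ZFSet.isOrdinal_toZFSet (ω : Ordinal.{0})).isTransitive _
      (nS_mem_om m) hn
    obtain ⟨l, rfl⟩ := mem_om.1 hom
    rw [happ l (nS_mem_nS.1 hn)]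
  rw [ZFSet.mem_sep, hT]
  constructor
  · exact fun h => h.2
  · exact fun h => ⟨(hAF.1 _).2 ⟨m, hSq⟩, h⟩

end SE
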