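import Pool.Agent.H9.SE.TarK

/-! # MP_eaeaf5_lc, SHO: Shoenfield absoluteness -/

set_option autoImplicit false

open Ordinal Order Set
open scoped ZFSet

namespace SE

open SF CAA

theorem sho_prl (hAI : T_AI) {W : V → Prop} (k : ZFm W) {x y : V} (hx : W x) (hy : W y) :
    W (prl x y) :=
  hAI.2.2.1.1 W k (cons x fun _ => y) fun i => by cases i <;> assumption

/-- an ordinal which contains all values of a rank function -/
theorem sho_bound {W : V → Prop} (k : ZFm W) {T E f : V} (hWf : W f) (h : Rkf T E f) :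
    ∃ α : Ordinal.{0}, W α.toZFSet ∧ ∀ b ∈ T, app f b ∈ α.toZFSet := by
  have hrg : ∀ y ∈ rg f, IsOrd y := by
    intro y hy
    obtain ⟨x, hx⟩ := mem_rg.1 hy
    have hxT : x ∈ T := by
      rw [← h.dm]; exact mem_dm.2 ⟨y, hx⟩
    have h1 := h.ord x hxT
    rwa [app_eq h.svl hx] at h1
  have hU : IsOrd (⋃₀ (rg f) : ZFSet) := by
    rw [isOrd_iff]
    constructor
    · intro y hy
      obtain ⟨z, hz, hyz⟩ := ZFSet.mem_sUnion.1 hy
      have h1 := ((isOrd_iff z).1 (hrg z hz)).1 y hyz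
      intro w hw
      exact ZFSet.mem_sUnion.2 ⟨z, hz, h1 hw⟩
    · intro y hy
      obtain ⟨z, hz, hyz⟩ := ZFSet.mem_sUnion.1 hy
      exact ((isOrd_iff z).1 (hrg z hz)).2 y hyz
  obtain ⟨β, hβ⟩ := hU
  refine ⟨succ β, ?_, ?_⟩
  · have h1 : W (insert (⋃₀ (rg f) : ZFSet) (⋃₀ (rg f) : ZFSet)) :=
      (Tm.ins (Tm.sUnion (Tm.rg (Tm.var 0))) (Tm.sUnion (Tm.rg (Tm.var 0)))).1 W k
        (fun _ => f) fun _ => hWf
    rw [hβ] at h1
    rwa [Ordinal.toZFSet_succ]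
  · intro b hb
    obtain ⟨γ, hγ⟩ := h.ord b hb
    have hbd : b ∈ dm f := by rw [h.dm]; exact hb
    obtain ⟨y, hy⟩ := mem_dm.1 hbd
    have h2 : app f b = y := app_eq h.svl hy
    have h3 : y ∈ rg f := mem_rg.2 ⟨b, hy⟩
    have h4 : app f b ⊆ (⋃₀ (rg f) : ZFSet) := by
      intro w hw
      rw [h2] at hw
      exact ZFSet.mem_sUnion.2 ⟨y, h3, hw⟩
    rw [hγ, hβ, Ordinal.toZFSet_subset_toZFSet_iff] at h4
    rw [hγ, Ordinal.toZFSet_mem_toZFSet_iff]
    exact lt_succ_of_le h4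

theorem t_sho (hAA : T_AA) (hAH : T_AH) (hAI : T_AI) (hKA : T_KA) (hKC : T_KC) (hKD : T_KD)
    (hKE0 : T_KE0) (hKE1 : T_KE1) (hKE2 : T_KE2) : T_SHO := by
  intro W W' k k' hsub hord a z hWa hRa hWz hRz
  constructor
  · rintro ⟨y, hWy, hRy, h⟩
    refine ⟨y, hsub y hWy, hRy, ?_⟩
    exact (hKD W W' k k' hsub a (prl z y) hWa hRa (sho_prl hAI k.toZFm hWz hWy)
      (hAH.1 z y hRz hRy).1).1 h
  · rintro ⟨y, hWy, hRy, h⟩
    obtain ⟨hC1, hC2, -, hC4⟩ := hKC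
    have hRzy := (hAH.1 z y hRz hRy).1
    have hWzy : W' (prl z y) := sho_prl hAI k'.toZFm (hsub z hWz) hWy
    have hTO : ∀ {M : V → Prop}, ZFm M → ∀ x, M a → M x → M (TO a x) := by
      intro M kM x ha hx
      exact hC1.1 M kM (cons a fun _ => x) fun i => by cases i <;> assumption
    have hEO : ∀ {M : V → Prop}, ZFm M → M EO := by
      intro M kM
      exact hC2.1 M kM (fun _ => ∅) fun _ => kM.mempty
    have h1 := (hC4 W' k'.toZFm a (prl z y) (hsub a hWa) hRa hWzy hRzy).1 h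
    obtain ⟨f, hWf, hfr⟩ := (hKA W' k' _ _ (hTO k'.toZFm _ (hsub a hWa) hWzy)
      (hEO k'.toZFm)).1 h1
    obtain ⟨α, hα, hfα⟩ := sho_bound k'.toZFm hWf hfr
    have hWα := hord α hα
    -- an enumeration of `hf`
    obtain ⟨e, hWe, he⟩ : ∃ e, W e ∧ Onto e om hf := by
      rcases hAA.2.2.2.2.2.2.2.2 W k.toZFm with h0 | h0
      · have : nS 0 ∈ hf := hAA.2.1 0
        rw [h0] at this
        exact absurd this (ZFSet.notMem_empty _)
      · exact h0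
    have h2 := hKE1 W' k'.toZFm e a z α.toZFSet y f (hsub e hWe) (hsub a hWa) (hsub z hWz) hα hWy
      hWf he hRa hRz hRy hfr hfα
    have hTS : W (TS e a z α.toZFSet) :=
      hKE0.1.1 W k.toZFm (cons e (cons a (cons z fun _ => α.toZFSet)))
        (fun i => by rcases i with _ | _ | _ | i <;> assumption)
    have hES : W (ES (TS e a z α.toZFSet)) :=
      hKE0.2.1 W k.toZFm (fun _ => TS e a z α.toZFSet) fun _ => hTS
    have h3 : ¬ NoDes W (TS e a z α.toZFSet) (ES (TS e a z α.toZFSet)) := by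
      intro h4
      obtain ⟨g, hWg, hg⟩ := (hKA W k _ _ hTS hES).1 h4
      exact h2 ((hKA W' k' _ _ (hsub _ hTS) (hsub _ hES)).2 ⟨g, hsub g hWg, hg⟩)
    obtain ⟨y', f', hWy', hRy', hWf', hf'⟩ := hKE2 W k.toZFm e a z α.toZFSet hWe hWa hWz hWα he
      ⟨α, rfl⟩ hRa hRz h3
    have hWzy' : W (prl z y') := sho_prl hAI k.toZFm hWz hWy'
    have hRzy' := (hAH.1 z y' hRz hRy').1
    have h5 := (hKA W k _ _ (hTO k.toZFm _ hWa hWzy') (hEO k.toZFm)).2 ⟨f', hWf', hf'⟩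
    exact ⟨y', hWy', hRy', (hC4 W k.toZFm a (prl z y') hWa hRa hWzy' hRzy').2 h5⟩

end SE
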