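import Pool.Agent.H9.SE.TarL

/-! # MP_eaeaf5_lc, LC1: a countable good set -/

set_option autoImplicit false

open Ordinal Order Set
open scoped ZFSet

namespace SE

open SF CAA

/-- closure under unordered pairs -/
noncomputable def lc1_f (_ : V → Prop) (v : ℕ → V) : V :=
  v 0 ∪ imS (ZFSet.prod (v 0) (v 0)) fun z => ({fst z, snd z} : V)

/-- first step -/
noncomputable def lc1_g (_ : V → Prop) (_ : ℕ → V) : V := insert om hf

theorem lc1_imS (a : V) (F : V → V) : imS a F = rg (resS a F) := by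
  ext y
  rw [mem_imS, mem_rg]
  constructor
  · rintro ⟨x, hx, rfl⟩
    exact ⟨x, by rw [pair_mem_resS]; exact ⟨hx, rfl⟩⟩
  · rintro ⟨x, hx⟩
    rw [pair_mem_resS] at hx
    exact ⟨x, hx.1, hx.2.symm⟩

theorem lc1_tmf : Tm ZFm lc1_f := by
  unfold lc1_f
  exact Tm.union (Tm.var 0) (Tm.image (f := fun _ v => ZFSet.prod (v 0) (v 0))
    (g := fun _ u => ({fst (u 0), snd (u 0)} : V)) (Tm.prod (Tm.var 0) (Tm.var 0))
    (Tm.upair (Tm.fst (Tm.var 0)) (Tm.snd (Tm.var 0))))

theorem t_lc1 (hAA : T_AA) (hAC : T_AC) (hAD : T_AD) : T_LC1 := by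
  intro M k
  have hTg : Tm ZFm lc1_g := by
    unfold lc1_g
    exact Tm.ins Tm.om hAA.2.2.2.2.2.2.2.1
  set v : ℕ → V := fun _ => ∅ with hv
  have hMv : In M v := fun _ => k.toZFm.mempty
  set I : ℕ → V := it lc1_f lc1_g M v with hI
  have hI0 : I 0 = insert om hf := rfl
  have hIs : ∀ n, I (n + 1) = I n ∪ imS (ZFSet.prod (I n) (I n)) fun z => ({fst z, snd z} : V) :=
    fun n => rfl
  obtain ⟨-, hc2, hc3, hc4, -, hc6⟩ := hAC M k.toZFm
  have hMC : M (itU lc1_f lc1_g M v) := (Tm.itU lc1_tmf hTg).1 M k.toZFm v hMv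
  have hsub : ∀ n, I n ⊆ I (n + 1) := by
    intro n y hy
    rw [hIs, ZFSet.mem_union]
    exact Or.inl hy
  have hmono : ∀ n m, n ≤ m → I n ⊆ I m := by
    intro n m h
    induction m, h using Nat.le_induction with
    | base => exact fun _ h => h
    | succ m _ ih => exact fun _ h => hsub m (ih h)
  have hupair : ∀ n, ∀ x ∈ I n, ∀ y ∈ I n, ({x, y} : V) ∈ I (n + 1) := by
    intro n x hx y hy
    rw [hIs, ZFSet.mem_union]
    right
    rw [mem_imS]
    exact ⟨ZFSet.pair x y, ZFSet.pair_mem_prod.2 ⟨hx, hy⟩, by rw [fst_pair, snd_pair]⟩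
  have htr : ∀ n, ∀ y ∈ I n, y ⊆ I n := by
    intro n
    induction n with
    | zero =>
      intro y hy
      rw [hI0] at hy ⊢
      rcases ZFSet.mem_insert_iff.1 hy with rfl | hy
      · intro z hz
        exact ZFSet.mem_insert_iff.2 (Or.inr (hAA.2.2.1 hz))
      · intro z hz
        exact ZFSet.mem_insert_iff.2 (Or.inr (hAA.1 y hy hz))
    | succ n ih =>
      intro y hy
      rw [hIs, ZFSet.mem_union] at hy
      rcases hy with hy | hy
      · exact fun z hz => hsub n (ih y hy hz)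
      · obtain ⟨u, hu, rfl⟩ := mem_imS.1 hy
        obtain ⟨a, ha, b, hb, rfl⟩ := ZFSet.mem_prod.1 hu
        intro z hz
        rw [fst_pair, snd_pair, ZFSet.mem_pair] at hz
        rcases hz with rfl | rfl
        · exact hsub n ha
        · exact hsub n hb
  -- countability
  have hct : ∀ n, Ctbl M (I n) := by
    intro n
    induction n with
    | zero =>
      have h1 : insert om hf = ({om} : V) ∪ hf := by
        ext z
        rw [ZFSet.mem_insert_iff, ZFSet.mem_union, ZFSet.mem_singleton]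
      rw [hI0, h1]
      refine hc4 _ _ ?_ (hAA.2.2.2.2.2.2.2.2 M k.toZFm)
      have h2 : ({om} : V) = rg (resS hf fun _ => om) := by
        ext z
        rw [ZFSet.mem_singleton, mem_rg]
        constructor
        · rintro rfl
          exact ⟨nS 0, by rw [pair_mem_resS]; exact ⟨hAA.2.1 0, rfl⟩⟩
        · rintro ⟨x, hx⟩
          rw [pair_mem_resS] at hx
          exact hx.2
      rw [h2]
      refine hc6 hf _ ?_ (svl_resS _ _) (hAA.2.2.2.2.2.2.2.2 M k.toZFm) ?_
      · have hT : Tm ZFm (fun _ _ => resS hf fun _ => om) :=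
          Tm.resS (f := fun _ _ => hf) (g := fun _ _ => om) hAA.2.2.2.2.2.2.2.1 Tm.om
        exact hT.1 M k.toZFm v hMv
      · rw [dm_resS]
    | succ n ih =>
      rw [hIs]
      have hMI : M (I n) := (hAC M k.toZFm).1 _ ih
      refine hc4 _ _ ih ?_
      rw [lc1_imS]
      refine hc6 (ZFSet.prod (I n) (I n)) _ ?_ (svl_resS _ _) (hc3 _ _ ih ih) ?_
      · have hT : Tm ZFm (fun _ v => resS (ZFSet.prod (v 0) (v 0)) fun z =>
            ({fst z, snd z} : V)) :=
          Tm.resS (f := fun _ v => ZFSet.prod (v 0) (v 0))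
            (g := fun _ u => ({fst (u 0), snd (u 0)} : V)) (Tm.prod (Tm.var 0) (Tm.var 0))
            (Tm.upair (Tm.fst (Tm.var 0)) (Tm.snd (Tm.var 0)))
        exact hT.1 M k.toZFm (fun _ => I n) fun _ => hMI
      · rw [dm_resS]
  have hctom : Ctbl M om :=
    hc2 om hf (Tm.om.1 M k.toZFm v hMv) (hAA.2.2.2.2.2.2.2.2 M k.toZFm) hAA.2.2.1
  refine ⟨itU lc1_f lc1_g M v, hMC, ⟨?_, ?_, ?_⟩, ?_⟩
  · intro y hy z hz
    obtain ⟨n, hn⟩ := mem_itU.1 hy
    exact mem_itU.2 ⟨n, htr n y hn hz⟩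
  · exact mem_itU.2 ⟨0, ZFSet.mem_insert_iff.2 (Or.inl rfl)⟩
  · intro x hx y hy
    obtain ⟨n, hn⟩ := mem_itU.1 hx
    obtain ⟨m, hm⟩ := mem_itU.1 hy
    have hx' := hmono n (max n m) (le_max_left _ _) hn
    have hy' := hmono m (max n m) (le_max_right _ _) hm
    have h1 := hupair _ x hx' x hx'
    have h2 := hupair _ x hx' y hy'
    have h3 := hupair _ _ h1 _ h2
    have h4 : ({x, x} : V) = {x} := by
      ext z
      rw [ZFSet.mem_pair, ZFSet.mem_singleton, or_self]
    rw [h4] at h3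
    exact mem_itU.2 ⟨_, h3⟩
  · unfold itU
    refine hAD M k _ ?_ ?_
    · rw [lc1_imS]
      refine hc6 om _ ?_ (svl_resS _ _) hctom ?_
      · exact (Tm.resS (f := fun _ _ => om)
          (g := fun M u => it lc1_f lc1_g M (fun i => u (i + 1)) (nn (u 0))) Tm.om
          (tm_it lc1_tmf hTg)).1 M k.toZFm v hMv
      · rw [dm_resS]
    · intro x hx
      obtain ⟨u, hu, rfl⟩ := mem_imS.1 hx
      exact hct (nn u)

end SE
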