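import Pool.Agent.H9.SE.TarL

/-! # MP_eaeaf5_lc, LD1: projection of dense sets -/

set_option autoImplicit false

open Ordinal Order Set
open scoped ZFSet

namespace SE

open SF CAA

/-- the projection to the first `k` coordinates, above `s` -/
noncomputable def ld1_E (k : ℕ) (E s : V) : V :=
  imS (E.sep fun t => s ⊆ app t (nS k)) fun t => resS (nS k) fun n => app t n

theorem ld1_tm (k : ℕ) : Tm ZFm (fun _ v => ld1_E k (v 0) (v 1)) := by
  unfold ld1_E
  refine Tm.image (f := fun _ v => (v 0).sep fun t => v 1 ⊆ app t (nS k))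
    (g := fun _ u => resS (nS k) fun n => app (u 0) n) ?_ ?_
  · exact Tm.sep (R := fun _ w => w 2 ⊆ app (w 0) (nS k))
      (Dfb.subset (Tm.var 2) (Tm.app (Tm.var 0) (Tm.nS k))) (Tm.var 0)
  · exact Tm.resS (f := fun _ _ => nS k) (g := fun _ u => app (u 1) (u 0)) (Tm.nS k)
      (Tm.app (Tm.var 1) (Tm.var 0))

theorem t_ld1 (hAF : T_AF) : T_LD1 := by
  intro M kM k E s hME hs hE
  have hMsq : M sq := hAF.2.2.1.1 M kM (fun _ => ∅) fun _ => kM.mempty
  have hMs : M s := kM.trans _ hMsq _ hs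
  have hkk : ∀ x ∈ nS k, x ∈ nS (k + 1) := by
    intro x hx
    rw [nS_succ, ZFSet.mem_insert_iff]
    exact Or.inr hx
  refine ⟨ld1_E k E s, ?_, ⟨?_, ?_⟩, ?_⟩
  · exact (ld1_tm k).1 M kM (cons E fun _ => s) (fun i => by rcases i with _ | i <;> assumption)
  · intro t' ht'
    obtain ⟨t, ht, rfl⟩ := mem_imS.1 ht'
    have hfun := hE.f t (ZFSet.mem_sep.1 ht).1
    exact isFunc_resS _ _ _ fun x hx => app_mem hfun (hkk x hx)
  · intro r hr
    have hr' : ZFSet.IsFunc (nS (k + 1)) sq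
        (resS (nS (k + 1)) fun n => sel (n = nS k) s (app r n)) := by
      refine isFunc_resS _ _ _ fun x hx => ?_
      by_cases h : x = nS k
      · rw [sel_pos h]; exact hs
      · rw [sel_neg h]
        rw [nS_succ, ZFSet.mem_insert_iff] at hx
        exact app_mem hr (hx.resolve_left h)
    obtain ⟨t, ht, hle⟩ := hE.d _ hr'
    have hval : ∀ j < k + 1, app (resS (nS (k + 1)) fun n => sel (n = nS k) s (app r n)) (nS j) =
        sel (nS j = nS k) s (app r (nS j)) := fun j hj => app_resS (nS_mem_nS.2 hj)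
    refine ⟨resS (nS k) fun n => app t n, ?_, ?_⟩
    · refine mem_imS.2 ⟨t, ZFSet.mem_sep.2 ⟨ht, ?_⟩, rfl⟩
      have h1 := hle k (Nat.lt_succ_self k)
      rwa [hval k (Nat.lt_succ_self k), sel_pos rfl] at h1
    · intro j hj
      have h1 := hle j (Nat.lt_succ_of_lt hj)
      rw [hval j (Nat.lt_succ_of_lt hj), sel_neg (fun h => hj.ne (nS_inj.1 h))] at h1
      rwa [app_resS (nS_mem_nS.2 hj)]
  · intro t' ht'
    obtain ⟨t, ht, rfl⟩ := mem_imS.1 ht'
    refine ⟨t, (ZFSet.mem_sep.1 ht).1, (ZFSet.mem_sep.1 ht).2, ?_⟩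
    intro j hj
    rw [app_resS (nS_mem_nS.2 hj)]

end SE
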